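import Pool.Agent.R433.MD.Descent

/-!
# Meromorphic continuation from number fields of large degree

`E` is an elliptic curve over a number field `K`.  Let `m, n` be positive integers.  There are finitely
many finite extensions `F_i / K`, which do not depend on `E`, all of degree divisible by `m` or by `n`,
such that the meromorphic continuation of the `L(E/F_i, s)` implies that of `L(E/K, s) ^ gcd(m, n)`.
For `m = 2^100`, `n = 3^100` the Hasse-Weil conjecture (in its meromorphic form) for number fields of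
degree divisible by `2^100` or `3^100` implies the conjecture for all number fields.

Nothing is assumed about `E` or `K`.
-/

set_option autoImplicit false

namespace Pool.Agent.Results.MP_0d9be2_nt.DegreeDescent

open NumberField IsDedekindDomain

/-- `V v` is, for every prime `v`, an integral model of `E` with discriminant minimal at `v`. -/
def MinimalModels {K : Type} [Field K] [NumberField K] (E : WeierstrassCurve K)
    (V : HeightOneSpectrum (𝓞 K) → WeierstrassCurve (𝓞 K)) : Prop :=
  ∀ v : HeightOneSpectrum (𝓞 K),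
    (∃ C : WeierstrassCurve.VariableChange K, C • (V v).map (algebraMap (𝓞 K) K) = E) ∧
    ∀ W : WeierstrassCurve (𝓞 K),
      (∃ C : WeierstrassCurve.VariableChange K, C • W.map (algebraMap (𝓞 K) K) = E) →
        ∀ n : ℕ, (V v).Δ ∈ v.asIdeal ^ n → W.Δ ∈ v.asIdeal ^ n

open Classical in
/-- The Euler product of `L(E/K, s)` over all primes `v` of `K`, computed from the reductions of the
models `V v`. -/
noncomputable def LSeries {K : Type} [Field K] [NumberField K]
    (V : HeightOneSpectrum (𝓞 K) → WeierstrassCurve (𝓞 K)) (s : ℂ) : ℂ :=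
  ∏' v : HeightOneSpectrum (𝓞 K),
    (1 - ((Ideal.absNorm v.asIdeal : ℂ)
          - (Nat.card {xy : (𝓞 K ⧸ v.asIdeal) × (𝓞 K ⧸ v.asIdeal) //
              ((V v).map (Ideal.Quotient.mk v.asIdeal)).toAffine.Equation xy.1 xy.2} : ℂ))
          * (Ideal.absNorm v.asIdeal : ℂ) ^ (-s)
      + (if (V v).Δ ∈ v.asIdeal then 0 else (Ideal.absNorm v.asIdeal : ℂ))
          * (Ideal.absNorm v.asIdeal : ℂ) ^ (-2 * s))⁻¹

/-- `L(E/K, s) ^ k` has a meromorphic continuation to the set `U` of complex numbers. -/
def Continues {K : Type} [Field K] [NumberField K] (E : WeierstrassCurve K) (U : Set ℂ) (k : ℕ) :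
    Prop :=
  ∃ V : HeightOneSpectrum (𝓞 K) → WeierstrassCurve (𝓞 K), MinimalModels E V ∧
    ∃ Λ : ℂ → ℂ, MeromorphicOn Λ U ∧ ∀ s : ℂ, 3 / 2 < s.re → Λ s = LSeries V s ^ k

section Aux

open Pool.Agent.H341R2.EC Pool.Agent.R433.MD
open Pool.Agent.H921R2.TatePole (nm two_le_nm)

variable {K : Type} [Field K] [NumberField K]

theorem isModel_iff (E : WeierstrassCurve K) (W : WeierstrassCurve (𝓞 K)) :
    (∃ C : WeierstrassCurve.VariableChange K, C • W.map (algebraMap (𝓞 K) K) = E) ↔
      IsModel E W := by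
  constructor
  · rintro ⟨C, hC⟩
    exact ⟨C⁻¹, by rw [← hC, inv_smul_smul]⟩
  · rintro ⟨C, hC⟩
    exact ⟨C⁻¹, by rw [← hC, inv_smul_smul]⟩

theorem minimalModels_iff (E : WeierstrassCurve K)
    (V : HeightOneSpectrum (𝓞 K) → WeierstrassCurve (𝓞 K)) :
    MinimalModels E V ↔ ∀ v, IsMinAt E v (V v) := by
  unfold MinimalModels IsMinAt
  simp only [isModel_iff]

theorem lseries_eq (V : HeightOneSpectrum (𝓞 K) → WeierstrassCurve (𝓞 K)) (s : ℂ) :
    LSeries V s = LL V s := by
  unfold LSeries LL
  refine tprod_congr fun v => ?_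
  congr 1
  unfold lf trc dlt
  have h0 : ((nm v : ℕ) : ℂ) ≠ 0 := by
    have := two_le_nm v
    exact_mod_cast (by omega : nm v ≠ 0)
  have e1 : Nat.card {xy : (𝓞 K ⧸ v.asIdeal) × (𝓞 K ⧸ v.asIdeal) //
      ((V v).map (Ideal.Quotient.mk v.asIdeal)).toAffine.Equation xy.1 xy.2} =
      aff (red v (V v)) := by
    unfold aff red
    refine Nat.card_congr (Equiv.subtypeEquivRight fun xy => ?_)
    rw [WeierstrassCurve.Affine.equation_iff]
  have e2 : ((nm v : ℕ) : ℂ) ^ (1 - 2 * s) = ((nm v : ℕ) : ℂ) * ((nm v : ℕ) : ℂ) ^ (-2 * s) := by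
    rw [sub_eq_add_neg, Complex.cpow_add _ _ h0, Complex.cpow_one]
    congr 2
    ring
  have e3 : (Ideal.absNorm v.asIdeal : ℂ) = ((nm v : ℕ) : ℂ) := rfl
  rw [e1, e2, e3]
  push_cast
  split_ifs with h
  · ring
  · ring

theorem continues_iff (E : WeierstrassCurve K) (U : Set ℂ) (k : ℕ) :
    Continues E U k ↔ Pool.Agent.R433.MD.Cont E U k := by
  unfold Continues Pool.Agent.R433.MD.Cont
  simp only [minimalModels_iff, lseries_eq]

end Aux

/-- **Descent of the meromorphic continuation.**  Let `K` be a number field and `m, n ≥ 1`.  There are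
finitely many finite extensions `F_1, ..., F_r` of `K`, the degree of each divisible by `m` and dividing
`m²`, or divisible by `n` and dividing `n²`, such that for every elliptic curve `E` over `K` and every
set `U` of complex numbers: if all `L(E/F_i, s)` have a meromorphic continuation to `U`, then so has
`L(E/K, s) ^ gcd(m, n)`. -/
theorem result (K : Type) [Field K] [NumberField K] (m n : ℕ) (hm : 0 < m) (hn : 0 < n) :
    ∃ (r : ℕ) (F : Fin r → Type) (_ : ∀ i, Field (F i)) (_ : ∀ i, NumberField (F i))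
      (_ : ∀ i, Algebra K (F i)),
      (∀ i, (m ∣ Module.finrank K (F i) ∧ Module.finrank K (F i) ∣ m ^ 2) ∨
        (n ∣ Module.finrank K (F i) ∧ Module.finrank K (F i) ∣ n ^ 2)) ∧
      ∀ (E : WeierstrassCurve K), E.IsElliptic → ∀ U : Set ℂ,
        (∀ i, Continues (E.map (algebraMap K (F i))) U 1) → Continues E U (Nat.gcd m n) := by
  obtain ⟨r, Z, hZ, hC⟩ := Pool.Agent.R433.MD.descent_two hm hn K
  refine ⟨r, fun i => (Z i).F, fun i => (Z i).field, fun i => (Z i).nf, fun i => (Z i).alg, hZ,
    fun E hE U h => ?_⟩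
  rw [continues_iff]
  exact hC E hE U fun i => (continues_iff _ _ _).1 (h i)

end Pool.Agent.Results.MP_0d9be2_nt.DegreeDescent
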