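import Pool.Agent.R433.MD.FuncEq
import Pool.Agent.R433.MD.GalRel

/-!
# Meromorphic continuation of `L(E/K, s)` from the intermediate fields of a Galois extension

`E` is an elliptic curve over a number field `K`, `L / K` a finite Galois extension, `g` an element of
its Galois group, `F` an intermediate field.  `embeddings F g` is the number of `K`-embeddings of `F`
into the field fixed by `g`.  Let `P` be a set of prime numbers.

Meromorphic continuation is a local property: if for every `g`, and for every `g` and `p ∈ P`, there is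
an `F` such that `embeddings F g` is not zero, resp. not divisible by `p`, and such that `L(E/F', s)`
has a meromorphic continuation for all `F'` between `F` and `L`, then `L(E/K, s) ^ m` has a meromorphic
continuation for an `m` without prime factors in `P`.  If `P` consists of all prime numbers then
`m = 1`.

In particular it suffices to continue the `L(E/F, s)` for all `F` such that `Gal(L/F)` is
hyperelementary.  With `L = K(E[N])` it suffices to prove the meromorphic Hasse-Weil conjecture for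
elliptic curves with hyperelementary, in particular solvable, image of the representation on the
`N`-torsion points.

Nothing is assumed about `E`, `K` or `L`.
-/

set_option autoImplicit false

namespace Pool.Agent.Results.MP_0d9be2_nt.HyperelementaryReduction

open NumberField IsDedekindDomain

/-- `V v` is, for every prime `v`, an integral model of `E` with discriminant minimal at `v`. -/
def MinimalModels {K : Type} [Field K] [NumberField K] (E : WeierstrassCurve K)
    (V : HeightOneSpectrum (𝓞 K) → WeierstrassCurve (𝓞 K)) : Prop :=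
  ∀ v : HeightOneSpectrum (𝓞 K),
    (∃ C : WeierstrassCurve.VariableChange K, C • (V v).map (algebraMap (𝓞 K) K) = E) ∧
    ∀ W : WeierstrassCurve (𝓞 K),
      (∃ C : WeierstrassCurve.VariableChange K, C • W.map (algebraMap (𝓞 K) K) = E) →
        ∀ n : ℕ, (V v).Δ ∈ v.asIdeal ^ n → W.Δ ∈ v.asIdeal ^ n

open Classical in
/-- The Euler product of `L(E/K, s)` over all primes `v` of `K`, computed from the reductions of the
models `V v`. -/
noncomputable def LSeries {K : Type} [Field K] [NumberField K]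
    (V : HeightOneSpectrum (𝓞 K) → WeierstrassCurve (𝓞 K)) (s : ℂ) : ℂ :=
  ∏' v : HeightOneSpectrum (𝓞 K),
    (1 - ((Ideal.absNorm v.asIdeal : ℂ)
          - (Nat.card {xy : (𝓞 K ⧸ v.asIdeal) × (𝓞 K ⧸ v.asIdeal) //
              ((V v).map (Ideal.Quotient.mk v.asIdeal)).toAffine.Equation xy.1 xy.2} : ℂ))
          * (Ideal.absNorm v.asIdeal : ℂ) ^ (-s)
      + (if (V v).Δ ∈ v.asIdeal then 0 else (Ideal.absNorm v.asIdeal : ℂ))
          * (Ideal.absNorm v.asIdeal : ℂ) ^ (-2 * s))⁻¹

/-- `L(E/K, s) ^ k` has a meromorphic continuation to the set `U` of complex numbers. -/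
def Continues {K : Type} [Field K] [NumberField K] (E : WeierstrassCurve K) (U : Set ℂ) (k : ℕ) :
    Prop :=
  ∃ Λ : ℂ → ℂ, MeromorphicOn Λ U ∧
    ∀ V : HeightOneSpectrum (𝓞 K) → WeierstrassCurve (𝓞 K), MinimalModels E V →
      ∀ s : ℂ, 3 / 2 < s.re → Λ s = LSeries V s ^ k

/-- The number of `K`-embeddings of `F` into the subfield of `L` fixed by `g`. -/
noncomputable def embeddings {K L : Type} [Field K] [Field L] [Algebra K L]
    (F : IntermediateField K L) (g : Gal(L/K)) : ℕ :=
  Nat.card {τ : F →ₐ[K] L // ∀ x, g (τ x) = τ x}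

/-- `H` is `p`-hyperelementary: it has a cyclic normal subgroup `C` of order prime to `p` such that
`H / C` is a `p`-group. -/
def IsHyperelementary {G : Type} [Group G] (p : ℕ) (H : Subgroup G) : Prop :=
  ∃ C : Subgroup G, C ≤ H ∧ IsCyclic C ∧ (Nat.card C).Coprime p ∧
    (∀ h ∈ H, ∀ c ∈ C, h * c * h⁻¹ ∈ C) ∧ ∀ h ∈ H, ∃ k : ℕ, h ^ p ^ k ∈ C

section Aux

open Pool.Agent.H341R2.EC Pool.Agent.R433.MD
open Pool.Agent.H921R2.TatePole (nm two_le_nm)

variable {K : Type} [Field K] [NumberField K]

theorem isModel_iff (E : WeierstrassCurve K) (W : WeierstrassCurve (𝓞 K)) :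
    (∃ C : WeierstrassCurve.VariableChange K, C • W.map (algebraMap (𝓞 K) K) = E) ↔
      IsModel E W := by
  constructor
  · rintro ⟨C, hC⟩
    exact ⟨C⁻¹, by rw [← hC, inv_smul_smul]⟩
  · rintro ⟨C, hC⟩
    exact ⟨C⁻¹, by rw [← hC, inv_smul_smul]⟩

theorem minimalModels_iff (E : WeierstrassCurve K)
    (V : HeightOneSpectrum (𝓞 K) → WeierstrassCurve (𝓞 K)) :
    MinimalModels E V ↔ ∀ v, IsMinAt E v (V v) := by
  unfold MinimalModels IsMinAt
  simp only [isModel_iff]

theorem lseries_eq (V : HeightOneSpectrum (𝓞 K) → WeierstrassCurve (𝓞 K)) (s : ℂ) :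
    LSeries V s = LL V s := by
  unfold LSeries LL
  refine tprod_congr fun v => ?_
  congr 1
  unfold lf trc dlt
  have h0 : ((nm v : ℕ) : ℂ) ≠ 0 := by
    have := two_le_nm v
    exact_mod_cast (by omega : nm v ≠ 0)
  have e1 : Nat.card {xy : (𝓞 K ⧸ v.asIdeal) × (𝓞 K ⧸ v.asIdeal) //
      ((V v).map (Ideal.Quotient.mk v.asIdeal)).toAffine.Equation xy.1 xy.2} =
      aff (red v (V v)) := by
    unfold aff red
    refine Nat.card_congr (Equiv.subtypeEquivRight fun xy => ?_)
    rw [WeierstrassCurve.Affine.equation_iff]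
  have e2 : ((nm v : ℕ) : ℂ) ^ (1 - 2 * s) = ((nm v : ℕ) : ℂ) * ((nm v : ℕ) : ℂ) ^ (-2 * s) := by
    rw [sub_eq_add_neg, Complex.cpow_add _ _ h0, Complex.cpow_one]
    congr 2
    ring
  have e3 : (Ideal.absNorm v.asIdeal : ℂ) = ((nm v : ℕ) : ℂ) := rfl
  rw [e1, e2, e3]
  push_cast
  split_ifs with h
  · ring
  · ring

theorem continues_iff {E : WeierstrassCurve K} (hE : E.IsElliptic) (U : Set ℂ) (k : ℕ) :
    Continues E U k ↔ Pool.Agent.R433.MD.Cont E U k := by
  unfold Continues Pool.Agent.R433.MD.Cont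
  simp only [minimalModels_iff, lseries_eq]
  constructor
  · rintro ⟨Λ, h1, h2⟩
    obtain ⟨V, hV⟩ := exists_minimal E hE
    exact ⟨V, hV, Λ, h1, h2 V hV⟩
  · rintro ⟨V, hV, Λ, h1, h2⟩
    refine ⟨Λ, h1, fun V' hV' s hs => ?_⟩
    rw [h2 s hs, LL_unique hE hV hV' s]

theorem eq_one_of {P : Set ℕ} {m : ℕ} (h : ∀ p ∈ P, p.Prime → ¬ p ∣ m) :
    (∀ p : ℕ, p.Prime → p ∈ P) → m = 1 := by
  intro hP
  by_contra hm
  obtain ⟨p, hp, hpm⟩ := Nat.exists_prime_and_dvd hm
  exact h p (hP p hp) hp hpm

end Aux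

/-- Let `L / K` be a finite Galois extension of number fields and `P` a set of prime numbers.

1. Let `𝓕` be a set of intermediate fields, closed under composita and conjugation.  Assume that for
every `g ∈ Gal(L/K)` there is an `F ∈ 𝓕` with an embedding into the field fixed by `g`, and that for
every `g` and every `p ∈ P` there is an `F ∈ 𝓕` for which the number of these embeddings is not
divisible by `p`.  Then there are an integer `m ≥ 1` without prime factors in `P` (so `m = 1` if `P`
contains all prime numbers), finitely many fields `F ∈ 𝓕` and integers `n_F`, such that for all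
elliptic curves `E` over `K`, `L(E/K, s) ^ m = R(s) ∏ L(E/F, s) ^ n_F` for `Re s > 3/2`, with a
function `R` meromorphic on the plane, without zeros or poles for `Re s > 3/2`.

2. Let `E` be an elliptic curve over `K` and `U` a set of complex numbers.  Assume that for every `g`
(for every `g` and every `p ∈ P`) there is an intermediate field `F` such that the number of embeddings
of `F` into the field fixed by `g` is not zero (not divisible by `p`) and the `L(E/F', s)` have
meromorphic continuations to `U` for all `F'` between `F` and `L`.  Then `L(E/K, s) ^ m` has a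
meromorphic continuation to `U` for some `m ≥ 1` without prime factors in `P`.

3. There is an `m ≥ 1` without prime factors in `P` such that for all elliptic curves `E` over `K` and
all `U`: if `L(E/F, s)` has a meromorphic continuation to `U` for the fixed fields `F` of all subgroups
of `Gal(L/K)` which are cyclic or `p`-hyperelementary for a `p ∈ P`, then `L(E/K, s) ^ m` has a
meromorphic continuation to `U`. -/
theorem result (K L : Type) [Field K] [NumberField K] [Field L] [NumberField L] [Algebra K L]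
    [IsGalois K L] (P : Set ℕ) :
    (∀ 𝓕 : Set (IntermediateField K L), (∀ F ∈ 𝓕, ∀ F' ∈ 𝓕, F ⊔ F' ∈ 𝓕) →
      (∀ F ∈ 𝓕, ∀ σ : Gal(L/K), F.map (σ : L →ₐ[K] L) ∈ 𝓕) →
      (∀ g : Gal(L/K), ∃ F ∈ 𝓕, embeddings F g ≠ 0) →
      (∀ g : Gal(L/K), ∀ p ∈ P, p.Prime → ∃ F ∈ 𝓕, ¬ p ∣ embeddings F g) →
      ∃ (m : ℕ) (S : Finset (IntermediateField K L)) (n : IntermediateField K L → ℤ),
        m ≠ 0 ∧ (∀ p ∈ P, p.Prime → ¬ p ∣ m) ∧ ((∀ p : ℕ, p.Prime → p ∈ P) → m = 1) ∧
        (∀ F ∈ S, F ∈ 𝓕) ∧ (∀ g : Gal(L/K), ∑ F ∈ S, n F * embeddings F g = m) ∧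
        ∀ E : WeierstrassCurve K, E.IsElliptic →
          ∃ R : ℂ → ℂ, MeromorphicOn R Set.univ ∧
            ∀ (V : HeightOneSpectrum (𝓞 K) → WeierstrassCurve (𝓞 K))
              (VF : ∀ F : IntermediateField K L, HeightOneSpectrum (𝓞 F) → WeierstrassCurve (𝓞 F)),
              MinimalModels E V →
              (∀ F : IntermediateField K L, MinimalModels (E.map (algebraMap K F)) (VF F)) →
              ∀ s : ℂ, 3 / 2 < s.re → R s ≠ 0 ∧
                LSeries V s ^ m = R s * ∏ F ∈ S, LSeries (VF F) s ^ n F) ∧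
    (∀ E : WeierstrassCurve K, E.IsElliptic → ∀ U : Set ℂ,
      (∀ g : Gal(L/K), ∃ F : IntermediateField K L, embeddings F g ≠ 0 ∧
        ∀ F', F ≤ F' → Continues (E.map (algebraMap K F')) U 1) →
      (∀ g : Gal(L/K), ∀ p ∈ P, p.Prime → ∃ F : IntermediateField K L, ¬ p ∣ embeddings F g ∧
        ∀ F', F ≤ F' → Continues (E.map (algebraMap K F')) U 1) →
      ∃ m : ℕ, m ≠ 0 ∧ (∀ p ∈ P, p.Prime → ¬ p ∣ m) ∧ ((∀ p : ℕ, p.Prime → p ∈ P) → m = 1) ∧
        Continues E U m) ∧
    ∃ m : ℕ, m ≠ 0 ∧ (∀ p ∈ P, p.Prime → ¬ p ∣ m) ∧ ((∀ p : ℕ, p.Prime → p ∈ P) → m = 1) ∧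
      ∀ E : WeierstrassCurve K, E.IsElliptic → ∀ U : Set ℂ,
        (∀ H : Subgroup Gal(L/K), IsCyclic H ∨ (∃ p ∈ P, p.Prime ∧ IsHyperelementary p H) →
          Continues (E.map (algebraMap K (IntermediateField.fixedField H))) U 1) →
        Continues E U m := by
  refine ⟨fun 𝓕 hsup hconj h0 hP => ?_, fun E hE U h0 hP => ?_, ?_⟩
  · obtain ⟨m, S, n, hm0, hmP, hS, hsum⟩ :=
      Pool.Agent.R433.MD.gal_unit 𝓕 hsup hconj P h0 hP
    refine ⟨m, S, n, hm0, hmP, eq_one_of hmP, hS, fun g => ?_, fun E hE => ?_⟩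
    · rw [← hsum g]
      exact Finset.sum_congr rfl fun F _ => by
        rw [Pool.Agent.R433.MD.fx_eq_emb]
        rfl
    · obtain ⟨V0, hV0⟩ := Pool.Agent.R433.MD.exists_minimal E hE
      choose W hW using fun F : IntermediateField K L =>
        Pool.Agent.R433.MD.exists_minimal (E.map (algebraMap K F)) inferInstance
      obtain ⟨R, hR, hRL⟩ := Pool.Agent.R433.MD.gal_rel S m n hsum E hE V0 hV0 W hW
      refine ⟨R, hR, fun V VF hV hVF s hs => ?_⟩
      obtain ⟨h1, h2⟩ := hRL s hs
      refine ⟨h1, ?_⟩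
      rw [minimalModels_iff] at hV
      rw [lseries_eq, Pool.Agent.R433.MD.LL_unique hE hV hV0, h2]
      congr 1
      refine Finset.prod_congr rfl fun F _ => ?_
      rw [lseries_eq, Pool.Agent.R433.MD.LL_unique inferInstance
        ((minimalModels_iff _ _).1 (hVF F)) (hW F)]
  · obtain ⟨m, hm0, hmP, hm⟩ := Pool.Agent.R433.MD.gal_local E hE U P
      (fun g => by
        obtain ⟨F, h1, h2⟩ := h0 g
        exact ⟨F, h1, fun F' h => (continues_iff inferInstance U 1).1 (h2 F' h)⟩)
      (fun g p hp hpp => by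
        obtain ⟨F, h1, h2⟩ := hP g p hp hpp
        exact ⟨F, h1, fun F' h => (continues_iff inferInstance U 1).1 (h2 F' h)⟩)
    exact ⟨m, hm0, hmP, eq_one_of hmP, (continues_iff hE U m).2 hm⟩
  · obtain ⟨m, hm0, hmP, hm⟩ := Pool.Agent.R433.MD.gal_hyper K L P
    refine ⟨m, hm0, hmP, eq_one_of hmP, fun E hE U h => ?_⟩
    rw [continues_iff hE]
    exact hm E hE U fun H hH => (continues_iff inferInstance U 1).1 (h H hH)

end Pool.Agent.Results.MP_0d9be2_nt.HyperelementaryReduction
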