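import Pool.Agent.TH942.ES.NF
import Pool.Agent.TH942.ES.StarExt
import Pool.Agent.R765.Mer8

/-!
# Meromorphic continuation of the `L`-series of an elliptic curve over a number field, its zeros and
poles, and finite sums of point counts

Let `K` be any number field and `E : y² = x³ + a x + b` an elliptic curve over `K`, `a, b ∈ 𝓞 K` (every
elliptic curve over `K` has such an equation). Let `L(s)` be the Euler product over the primes `v` of `K`
which do not divide `6 (4 a³ + 27 b²)`. It converges for `Re s > 3/2`; the finitely many other Euler factors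
of `L(E, s)` are holomorphic without zeros and poles for `Re s > 1`. NO CONTINUATION OF `L(s)` IS ASSUMED. For
`ρ > 1` let

`w_ρ(u) = (2π)⁻¹ ∫ Re (exp (z - u z^(1/ρ)) / z) dt`, `z = 1 + it`

(the inverse Laplace transform of `exp (-u z^(1/ρ))/z` at `1`), and for `ρ' > ρ` let

`S_ρ(X) = ∑_{N v ≤ exp((log X)^ρ')} w_ρ(log N v / log X) log (#E(k_v) / N v)`,

a FINITE sum of point counts. For `c ≥ 0` let `R(ρ, c)` be the set of the `s` in the sector
`|arg (s-1)| < π/(2ρ)` with `Re (s-1)^ρ > c`; so `R(ρ, 0)` is the whole sector, and for `c > 0` the vertex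
`s = 1` is cut off. For all `K`, `E`, `1 < ρ < ρ'` the following is proved.

(1) Let `c ≥ 0`, let `J` be a finite subset of the sector and `m : J → ℤ`. Then `L(s)` has a MEROMORPHIC
continuation to `R(ρ, c)` (together with `Re s > 3/2`), of order `m(β)` at the points `β ∈ J` of `R(ρ, c)`
and without other zeros and poles in `R(ρ, c)`, if and only if for every `ε > 0`

`S_ρ(X) = ∑_{β ∈ J} m(β) ∫_1^((log X)^ρ) exp ((β-1)^ρ u) du/u + O(exp ((c + ε) (log X)^ρ))`.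

So the sums of point counts know the zeros and the poles, with their multiplicities.

(2) Equivalent: `L(s)` has a meromorphic continuation to the half plane `Re s > 1`; for all `1 < ρ < ρ'` and
`c > 0` there are finite `J` and `m` such that the formula in (1) holds; the same for a sequence of `ρ`
tending to `1`, each with one `ρ' > ρ`.

In (2) there is no condition on the zeros and the poles. The half plane `Re s > 1` is the half of the
critical strip which has to be reached: by the (conjectural) functional equation it is mapped to the other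
half. The case `J = ∅`, `c = 0` of (1) is the criterion for a holomorphic continuation without zeros.
-/

set_option autoImplicit false

namespace Pool.Agent.Results.MP_0d9be2_nt.MeromorphicContinuation

open NumberField IsDedekindDomain Filter Topology

variable {K : Type} [Field K] [NumberField K]

/-- `N v`, the number of elements of the residue field `𝓞 K / v`. -/
noncomputable def norm (v : HeightOneSpectrum (𝓞 K)) : ℕ := Ideal.absNorm v.asIdeal

/-- The prime `v` does not divide `6 (4 a³ + 27 b²)`. -/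
def Good (a b : 𝓞 K) (v : HeightOneSpectrum (𝓞 K)) : Prop :=
  6 * (4 * a ^ 3 + 27 * b ^ 2) ∉ v.asIdeal

/-- The number of affine points of `y² = x³ + a x + b` over `𝓞 K / v`; so `#E(k_v)` is this number plus one. -/
noncomputable def points (a b : 𝓞 K) (v : HeightOneSpectrum (𝓞 K)) : ℕ :=
  Nat.card {P : (𝓞 K ⧸ v.asIdeal) × (𝓞 K ⧸ v.asIdeal) //
    P.2 ^ 2 = P.1 ^ 3 + Ideal.Quotient.mk v.asIdeal a * P.1 + Ideal.Quotient.mk v.asIdeal b}

/-- `L(s) = ∏ (1 - a_v (N v)^(-s) + (N v)^(1-2s))⁻¹` over the primes `v` not dividing `6 (4 a³ + 27 b²)`,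
`a_v = N v + 1 - #E(k_v)`. -/
noncomputable def L (a b : 𝓞 K) (s : ℂ) : ℂ :=
  ∏' v : {v : HeightOneSpectrum (𝓞 K) // Good a b v},
    (1 - ((norm v.1 : ℂ) - points a b v.1) * (norm v.1 : ℂ) ^ (-s) + (norm v.1 : ℂ) ^ (1 - 2 * s))⁻¹

/-- `w_ρ(u) = (2π)⁻¹ ∫ Re (exp (z - u z^(1/ρ)) / z) dt`, `z = 1 + it`. -/
noncomputable def weight (ρ u : ℝ) : ℝ :=
  (2 * Real.pi)⁻¹ * ∫ t : ℝ, (Complex.exp ((1 + t * Complex.I) -
    u * (1 + t * Complex.I) ^ ((ρ⁻¹ : ℝ) : ℂ)) / (1 + t * Complex.I)).re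

/-- `S_ρ(X)`: the sum of `w_ρ(log N v / log X) log (#E(k_v) / N v)` over the good primes `v` with
`N v ≤ exp ((log X)^ρ')` (finitely many). -/
noncomputable def sum (a b : 𝓞 K) (ρ ρ' X : ℝ) : ℝ :=
  ∑ᶠ (v : {v : HeightOneSpectrum (𝓞 K) // Good a b v})
    (_ : (norm v.1 : ℝ) ≤ Real.exp (Real.log X ^ ρ')),
    weight ρ (Real.log (norm v.1) / Real.log X) * Real.log (((points a b v.1 : ℝ) + 1) / norm v.1)

/-- The sector `|arg (s-1)| < π/(2ρ)`, `s ≠ 1`. -/
def Sector (ρ : ℝ) : Set ℂ := {s | s ≠ 1 ∧ |(s - 1).arg| < Real.pi / (2 * ρ)}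

/-- `R(ρ, c)`: the `s` in the sector with `Re (s-1)^ρ > c`. -/
def Region (ρ c : ℝ) : Set ℂ := {s | s ∈ Sector ρ ∧ c < ((s - 1) ^ (ρ : ℂ)).re}

/-- `L(s)` has a meromorphic continuation to `R(ρ, c)` (together with `Re s > 3/2`), of order `m(s)` at the
points `s ∈ J` of `R(ρ, c)` and of order `0` at the other points of `R(ρ, c)`. -/
def Continues (a b : 𝓞 K) (ρ c : ℝ) (J : Finset ℂ) (m : ℂ → ℤ) : Prop :=
  ∃ G : ℂ → ℂ, (∀ s : ℂ, s ∈ Region ρ c ∨ 3 / 2 < s.re → MeromorphicAt G s) ∧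
    (∀ s : ℂ, 3 / 2 < s.re → G s = L a b s) ∧
    ∀ s ∈ Region ρ c, meromorphicOrderAt G s = if s ∈ J then (m s : WithTop ℤ) else 0

/-- `S_ρ(X) = ∑_{β ∈ J} m(β) ∫_1^((log X)^ρ) exp ((β-1)^ρ u) du/u + O(exp ((c + ε) (log X)^ρ))` for every
`ε > 0`. -/
def Formula (a b : 𝓞 K) (ρ ρ' c : ℝ) (J : Finset ℂ) (m : ℂ → ℤ) : Prop :=
  ∀ ε : ℝ, 0 < ε → ∃ C : ℝ, ∀ᶠ X : ℝ in atTop,
    ‖(sum a b ρ ρ' X : ℂ) - ∑ β ∈ J, (m β : ℂ) *
      ∫ u in (1 : ℝ)..Real.log X ^ ρ, Complex.exp ((β - 1) ^ (ρ : ℂ) * u) / u‖ ≤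
      C * Real.exp ((c + ε) * Real.log X ^ ρ)

open Pool.Agent.TH942.ES Pool.Agent.TH942.SL Pool.Agent.R765.Mer

/-- the norms of the good primes -/
noncomputable abbrev NK (a b : 𝓞 K) : {v // GoodV a b v} → ℕ :=
  fun v => Pool.Agent.H921R2.TatePole.nm v.1

/-- the Euler product, centred at zero -/
noncomputable abbrev LK (a b : 𝓞 K) : ℂ → ℂ := Pool.Agent.TH942.ES.LE (NK a b) (alV a b)

theorem L_eq (a b : 𝓞 K) (s : ℂ) : L a b (s + 1) = LK a b s := by
  rw [add_comm]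
  exact tprod_congr fun v => (curve_factor v s).symm

theorem sum_eq (a b : 𝓞 K) (ρ ρ' X : ℝ) : sum a b ρ ρ' X = SrE (NK a b) (alV a b) ρ ρ' X := by
  have h : ∀ v : {v // GoodV a b v}, cv (NK a b) (alV a b) v =
        Real.log (((ptsV a b v.1 : ℝ) + 1) / Pool.Agent.H921R2.TatePole.nm v.1) := curve_cv
  unfold SrE
  simp only [h]
  rfl

theorem mem_sector {ρ : ℝ} {s : ℂ} : s + 1 ∈ Sector ρ ↔ s ∈ Sect ρ := by
  unfold Sector Sect
  simp

theorem mem_region {ρ c : ℝ} {s : ℂ} : s + 1 ∈ Region ρ c ↔ s ∈ Reg ρ c := by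
  unfold Region Reg
  simp only [Set.mem_ofPred_eq, mem_sector, add_sub_cancel_right]

theorem re_iff {s : ℂ} : 3 / 2 < (s + 1).re ↔ 1 / 2 < s.re := by
  rw [Complex.add_re, Complex.one_re]
  constructor <;> intro h <;> linarith

/-- translation of the set -/
noncomputable def tr (J : Finset ℂ) : Finset ℂ := by
  classical
  exact J.image fun β => β - 1

theorem mem_tr {J : Finset ℂ} {s : ℂ} : s ∈ tr J ↔ s + 1 ∈ J := by
  classical
  unfold tr
  rw [Finset.mem_image]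
  constructor
  · rintro ⟨β, hβ, rfl⟩
    rwa [sub_add_cancel]
  · intro h
    exact ⟨s + 1, h, by ring⟩

theorem sum_tr (J : Finset ℂ) (m : ℂ → ℤ) (F : ℤ → ℂ → ℂ) :
    ∑ β ∈ tr J, F (m (β + 1)) β = ∑ β ∈ J, F (m β) (β - 1) := by
  classical
  unfold tr
  rw [Finset.sum_image fun x _ y _ h => by simpa using h]
  exact Finset.sum_congr rfl fun β _ => by rw [sub_add_cancel]

theorem TE_tr (ρ : ℝ) (J : Finset ℂ) (m : ℂ → ℤ) (y : ℝ) :
    TE ρ (tr J) (fun β => m (β + 1)) y = ∑ β ∈ J, (m β : ℂ) *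
      ∫ u in (1 : ℝ)..y, Complex.exp ((β - 1) ^ (ρ : ℂ) * u) / u :=
  sum_tr J m fun n β => (n : ℂ) * EI (β ^ (ρ : ℂ)) y

theorem mer_shift {G : ℂ → ℂ} {s c : ℂ} (h : MeromorphicAt G (s + c)) :
    MeromorphicAt (fun z => G (z + c)) s :=
  h.comp_analyticAt (f := G) (g := fun z : ℂ => z + c) (by fun_prop)

theorem ord_shift (G : ℂ → ℂ) (s c : ℂ) :
    meromorphicOrderAt (fun z => G (z + c)) s = meromorphicOrderAt G (s + c) :=
  meromorphicOrderAt_comp_add_const_eq_meromorphicOrderAt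

/-- the centred form of the continuation -/
theorem cont_iff (a b : 𝓞 K) (ρ c : ℝ) (J : Finset ℂ) (m : ℂ → ℤ) :
    Continues a b ρ c J m ↔ ∃ G : ℂ → ℂ,
      (∀ s : ℂ, s ∈ Reg ρ c ∨ 1 / 2 < s.re → MeromorphicAt G s) ∧
      (∀ s : ℂ, 1 / 2 < s.re → G s = LK a b s) ∧
      ∀ s ∈ Reg ρ c, meromorphicOrderAt G s =
        if s ∈ tr J then (m (s + 1) : WithTop ℤ) else 0 := by
  have hs1 : ∀ s : ℂ, s - 1 + 1 = s := fun s => by ring
  constructor
  · rintro ⟨G, h1, h2, h3⟩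
    refine ⟨fun s => G (s + 1), fun s hs => ?_, fun s hs => ?_, fun s hs => ?_⟩
    · exact mer_shift (h1 (s + 1) (by rwa [mem_region, re_iff]))
    · exact (h2 _ (re_iff.2 hs)).trans (L_eq a b s)
    · rw [ord_shift, h3 _ (mem_region.2 hs)]
      simp only [mem_tr]
  · rintro ⟨G, h1, h2, h3⟩
    refine ⟨fun s => G (s + (-1)), fun s hs => ?_, fun s hs => ?_, fun s hs => ?_⟩
    · refine mer_shift (h1 _ ?_)
      rwa [← mem_region, ← re_iff, ← sub_eq_add_neg, hs1]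
    · simp only [← sub_eq_add_neg]
      rw [h2 _ (by rwa [← re_iff, hs1]), ← L_eq, hs1]
    · rw [ord_shift, ← sub_eq_add_neg, h3 _ (by rwa [← mem_region, hs1])]
      simp only [mem_tr, hs1]

/-- the centred form of the formula -/
theorem form_iff (a b : 𝓞 K) {ρ ρ' c : ℝ} (hρ : 1 < ρ) (hc : 0 ≤ c) (J : Finset ℂ) (m : ℂ → ℤ) :
    Formula a b ρ ρ' c J m ↔ ∀ ε : ℝ, 0 < ε → ∃ C : ℝ, ∀ᶠ Y : ℝ in atTop,
      ‖(SrE (NK a b) (alV a b) ρ ρ' Y : ℂ) - TS ρ (tr J) (fun β => m (β + 1)) (Real.log Y ^ ρ)‖ ≤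
        C * Real.exp ((c + ε) * Real.log Y ^ ρ) := by
  obtain ⟨C₀, hC₀, h0⟩ := TS_TE ρ (tr J) (fun β => m (β + 1))
  unfold Formula
  simp only [sum_eq, ← TE_tr]
  constructor
  · intro h
    exact growth_iff (S := fun Y => (SrE (NK a b) (alV a b) ρ ρ' Y : ℂ)) hρ hc hC₀
      (T₁ := TE ρ (tr J) fun β => m (β + 1)) (T₂ := TS ρ (tr J) fun β => m (β + 1))
      (fun y hy => by
        rw [norm_sub_rev]
        exact h0 y hy) h
  · intro h
    exact growth_iff (S := fun Y => (SrE (NK a b) (alV a b) ρ ρ' Y : ℂ)) hρ hc hC₀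
      (T₁ := TS ρ (tr J) fun β => m (β + 1)) (T₂ := TE ρ (tr J) fun β => m (β + 1)) h0 h

/-- **Meromorphic continuation and finite sums of point counts.** -/
theorem result (K : Type) [Field K] [NumberField K] (a b : 𝓞 K) (_h : 4 * a ^ 3 + 27 * b ^ 2 ≠ 0) :
    (∀ (ρ ρ' c : ℝ) (J : Finset ℂ) (m : ℂ → ℤ), 1 < ρ → ρ < ρ' → 0 ≤ c → (∀ β ∈ J, β ∈ Sector ρ) →
      (Continues a b ρ c J m ↔ Formula a b ρ ρ' c J m)) ∧
    List.TFAE [
      ∃ G : ℂ → ℂ, (∀ s : ℂ, 1 < s.re → MeromorphicAt G s) ∧ ∀ s : ℂ, 3 / 2 < s.re → G s = L a b s,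
      ∀ ρ ρ' c : ℝ, 1 < ρ → ρ < ρ' → 0 < c → ∃ (J : Finset ℂ) (m : ℂ → ℤ),
        (∀ β ∈ J, β ∈ Region ρ c) ∧ Formula a b ρ ρ' c J m,
      ∀ ρ₁ : ℝ, 1 < ρ₁ → ∃ ρ ρ' : ℝ, 1 < ρ ∧ ρ < ρ₁ ∧ ρ < ρ' ∧ ∀ c : ℝ, 0 < c →
        ∃ (J : Finset ℂ) (m : ℂ → ℤ), (∀ β ∈ J, β ∈ Sector ρ) ∧ Formula a b ρ ρ' c J m] := by
  have E := curve_sys a b
  have htr : ∀ (ρ : ℝ) (J : Finset ℂ), (∀ β ∈ J, β ∈ Sector ρ) → ∀ β ∈ tr J, β ∈ Sect ρ :=
    fun ρ J hJ β hβ => mem_sector.1 (hJ _ (mem_tr.1 hβ))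
  have h1 : ∀ (ρ ρ' c : ℝ) (J : Finset ℂ) (m : ℂ → ℤ), 1 < ρ → ρ < ρ' → 0 ≤ c →
      (∀ β ∈ J, β ∈ Sector ρ) → (Continues a b ρ c J m ↔ Formula a b ρ ρ' c J m) := by
    intro ρ ρ' c J m hρ hρ' hc hJ
    rw [cont_iff, form_iff a b hρ hc]
    constructor
    · rintro ⟨G, h2, h3, h4⟩ ε hε
      exact small_of_mer (m := fun β => m (β + 1)) E hρ hρ' hc (htr ρ J hJ)
        (fun s hs => h2 s (Or.inl hs)) (fun s _ hs => h3 s hs) h4 hε
    · intro h
      exact mer_of_small (m := fun β => m (β + 1)) E hρ hρ' hc (htr ρ J hJ) h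
  refine ⟨h1, ?_⟩
  tfae_have 1 → 2 := by
    rintro ⟨G, h2, h3⟩ ρ ρ' c hρ hρ' hc
    obtain ⟨J, m, h4, h5⟩ := fin_of_mer E hρ hc (G := fun s => G (s + 1))
      (fun s hs => mer_shift (h2 (s + 1) (by
        rw [Complex.add_re, Complex.one_re]
        linarith)))
      (fun s hs => (h3 _ (re_iff.2 hs)).trans (L_eq a b s))
    classical
    have k1 : ∀ s : ℂ, s ∈ J.image (fun β => β + 1) ↔ s - 1 ∈ J := fun s => by
      rw [Finset.mem_image]
      constructor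
      · rintro ⟨β, hβ, rfl⟩
        rwa [add_sub_cancel_right]
      · intro h
        exact ⟨s - 1, h, by ring⟩
    have k2 : ∀ β ∈ J.image (fun β => β + 1), β ∈ Region ρ c := fun β hβ => by
      have := h4 _ ((k1 β).1 hβ)
      rw [← mem_region, sub_add_cancel] at this
      exact this
    refine ⟨J.image fun β => β + 1, fun s => m (s - 1), k2, ?_⟩
    rw [← h1 ρ ρ' c _ _ hρ hρ' hc.le fun β hβ => (k2 β hβ).1]
    refine ⟨G, fun s hs => ?_, h3, fun s hs => ?_⟩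
    · rcases hs with hs | hs
      · refine h2 s ?_
        have := sect_re hρ (mem_sector.1 (show s - 1 + 1 ∈ Sector ρ by
          rw [sub_add_cancel]
          exact hs.1))
        rw [Complex.sub_re, Complex.one_re] at this
        linarith
      · exact h2 s (by linarith)
    · have k3 := h5 (s - 1) (by rwa [← mem_region, sub_add_cancel])
      rw [ord_shift, sub_add_cancel] at k3
      rw [k3]
      simp only [k1]
  tfae_have 2 → 3 := by
    intro h ρ₁ hρ₁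
    refine ⟨(1 + ρ₁) / 2, ρ₁, by linarith, by linarith, by linarith, fun c hc => ?_⟩
    obtain ⟨J, m, h2, h3⟩ := h ((1 + ρ₁) / 2) ρ₁ c (by linarith) (by linarith) hc
    exact ⟨J, m, fun β hβ => (h2 β hβ).1, h3⟩
  tfae_have 3 → 1 := by
    intro h
    obtain ⟨G, h2, h3⟩ := glue_mer E (fun s hs => by
      obtain ⟨n, hn⟩ := Sys.exists_sect hs
      obtain ⟨ρ, ρ', h4, h5, h6, h7⟩ := h (1 + 1 / ((n : ℝ) + 1)) (by
        have : (0 : ℝ) < 1 / ((n : ℝ) + 1) := by positivity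
        linarith)
      have h8 : s ∈ Sect ρ := sect_mono h4 h5.le hn
      have h9 := (exists_root h4 h8.1 h8.2).1
      obtain ⟨J, m, h10, h11⟩ := h7 ((s ^ (ρ : ℂ)).re / 2) (by linarith)
      have h12 := (h1 ρ ρ' _ J m h4 h6 (by linarith) h10).2 h11
      rw [cont_iff] at h12
      obtain ⟨G, k1, k2, -⟩ := h12
      exact ⟨ρ, _, h4, by linarith, ⟨h8, by linarith⟩, G, k1, k2⟩)
    refine ⟨fun s => G (s + (-1)), fun s hs => ?_, fun s hs => ?_⟩
    · refine mer_shift (h2 _ ?_)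
      rw [← sub_eq_add_neg, Complex.sub_re, Complex.one_re]
      linarith
    · simp only [← sub_eq_add_neg]
      have k1 := h3 (s - 1) (by rwa [← re_iff, sub_add_cancel])
      have k2 := L_eq a b (s - 1)
      rw [sub_add_cancel] at k2
      exact k1.trans k2.symm
  tfae_finish

end Pool.Agent.Results.MP_0d9be2_nt.MeromorphicContinuation
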