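import Pool.Agent.R791.Ends
import Pool.Agent.R791.CurveNF

/-!
# The growth exponents of finite sums of point counts: the real segment and the half plane

Let `K` be ANY number field and `E : y² = x³ + a x + b`, `a, b ∈ 𝓞_K`; `v` runs over the primes of `K` that do not
divide `6(4a³+27b²)`, and `#E(k_v) = N_v + 1`. Let `L(E/K, s)` be the Euler product over these `v`, `Re s > 3/2`. For
`1 < ρ < ρ'` let

`w_ρ(u) = (2π)⁻¹ ∫ Re (exp (z - u z^(1/ρ)) / z) dt`, `z = 1 + it`, and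
`S_ρ(Y) = ∑_{Nv ≤ exp((log Y)^ρ')} w_ρ(log Nv / log Y) log (#E(k_v)/Nv)`,

a FINITE sum of point counts. For `u ≥ 0` write `B_ρ(u)` for the bound `|S_ρ(Y)| ≤ C(ε) exp ((u^ρ + ε) (log Y)^ρ)` for
every `ε > 0`, and `B⁺_ρ(u)`, `B⁻_ρ(u)` for the one-sided bounds for `S_ρ(Y)` and for `-S_ρ(Y)`. Nothing is assumed on
the continuation of `L(E/K, s)`. It is proved, for all `E` and `K`:

(1) the exponents decrease: `B_ρ(u)` implies `B_σ(u)` for all `σ ≥ ρ > 1`;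

(2) the end `ρ → ∞`: for `t ≥ 0`, `L(E/K, s)` has an analytic continuation WITHOUT ZEROS along the real axis to
`(1 + t, ∞)` if and only if for every `u > t` the bound `B_ρ(u)` holds for some `ρ > 1`, if and only if it holds for all
large `ρ`;

(3) both ends: for `t ≥ 0`, `L(E/K, s)` has a holomorphic continuation without zeros to the half plane
`Re s > 1 + t` if and only if `B_ρ(t)` holds for all `ρ > 1`, if and only if for every `u > t` the two-sided bound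
`B_ρ(u)` holds for some (large) `ρ`, and for `ρ` arbitrarily near `1` only the ONE-SIDED bound `B⁺_ρ(t)` holds; and the
same with `B⁻_ρ(t)`.

So the real segment of zero-free continuation and the half plane of zero-free continuation are the two limits of one
decreasing function of `ρ`, defined by finite sums of point counts, and for `ρ` near `1` one sign is enough. In
particular (`t = 0`) `L(E/K, s)` continues without zeros to `Re s > 1` iff `S_ρ(Y) ≤ exp (ε (log Y)^ρ)` for `ρ` near `1`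
and `|S_ρ(Y)| ≤ exp (ε (log Y)^ρ)` for `ρ` near `∞`.
-/

set_option autoImplicit false

namespace Pool.Agent.Results.MP_0d9be2_nt.TwoEnds

open Filter Topology Complex NumberField IsDedekindDomain
open Pool.Agent.TH942.ES Pool.Agent.R791.SectGen Pool.Agent.R791.CurveNF

variable {K : Type} [Field K] [NumberField K]

/-- `B_ρ(u)`: `|S_ρ(Y)| ≤ C(ε) exp ((u^ρ + ε) (log Y)^ρ)` for every `ε > 0` and all large `Y`. -/
def Bound (a b : 𝓞 K) (ρ ρ' u : ℝ) : Prop :=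
  ∀ ε : ℝ, 0 < ε → ∃ C : ℝ, ∀ᶠ Y : ℝ in atTop,
    |sum a b ρ ρ' Y| ≤ C * Real.exp ((u ^ ρ + ε) * Real.log Y ^ ρ)

/-- `B⁺_ρ(u)`: `S_ρ(Y) ≤ C(ε) exp ((u^ρ + ε) (log Y)^ρ)` for every `ε > 0` and all large `Y`. -/
def Upper (a b : 𝓞 K) (ρ ρ' u : ℝ) : Prop :=
  ∀ ε : ℝ, 0 < ε → ∃ C : ℝ, ∀ᶠ Y : ℝ in atTop,
    sum a b ρ ρ' Y ≤ C * Real.exp ((u ^ ρ + ε) * Real.log Y ^ ρ)

/-- `B⁻_ρ(u)`: `-S_ρ(Y) ≤ C(ε) exp ((u^ρ + ε) (log Y)^ρ)` for every `ε > 0` and all large `Y`. -/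
def Lower (a b : 𝓞 K) (ρ ρ' u : ℝ) : Prop :=
  ∀ ε : ℝ, 0 < ε → ∃ C : ℝ, ∀ᶠ Y : ℝ in atTop,
    -sum a b ρ ρ' Y ≤ C * Real.exp ((u ^ ρ + ε) * Real.log Y ^ ρ)

/-- **Real segment and half plane as the two ends of the growth exponents.** -/
theorem result (a b : 𝓞 K) :
    (∀ ρ ρ' σ σ' u : ℝ, 1 < ρ → ρ < ρ' → ρ ≤ σ → σ < σ' → 0 ≤ u →
      Bound a b ρ ρ' u → Bound a b σ σ' u) ∧
    (∀ t : ℝ, 0 ≤ t → List.TFAE [
      ∃ G : ℂ → ℂ, (∀ x : ℝ, 1 + t < x → AnalyticAt ℂ G x ∧ G x ≠ 0) ∧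
        ∀ s : ℂ, 3 / 2 < s.re → G s = LSeries a b s,
      ∀ u : ℝ, t < u → ∃ ρ₁ : ℝ, ∀ ρ ρ' : ℝ, 1 < ρ → ρ₁ < ρ → ρ < ρ' → Bound a b ρ ρ' u,
      ∀ u : ℝ, t < u → ∃ ρ ρ' : ℝ, 1 < ρ ∧ ρ < ρ' ∧ Bound a b ρ ρ' u]) ∧
    ∀ t : ℝ, 0 ≤ t → List.TFAE [
      ∃ G : ℂ → ℂ, (∀ s : ℂ, 1 + t < s.re ∨ 3 / 2 < s.re → DifferentiableAt ℂ G s ∧ G s ≠ 0) ∧
        ∀ s : ℂ, 3 / 2 < s.re → G s = LSeries a b s,
      ∀ ρ ρ' : ℝ, 1 < ρ → ρ < ρ' → Bound a b ρ ρ' t,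
      (∀ u : ℝ, t < u → ∃ ρ ρ' : ℝ, 1 < ρ ∧ ρ < ρ' ∧ Bound a b ρ ρ' u) ∧
        ∀ ρ₁ : ℝ, 1 < ρ₁ → ∃ ρ ρ' : ℝ, 1 < ρ ∧ ρ < ρ₁ ∧ ρ < ρ' ∧ Upper a b ρ ρ' t,
      (∀ u : ℝ, t < u → ∃ ρ ρ' : ℝ, 1 < ρ ∧ ρ < ρ' ∧ Bound a b ρ ρ' u) ∧
        ∀ ρ₁ : ℝ, 1 < ρ₁ → ∃ ρ ρ' : ℝ, 1 < ρ ∧ ρ < ρ₁ ∧ ρ < ρ' ∧ Lower a b ρ ρ' t] := by
  have E := curve_sys a b
  have hB : ∀ ρ ρ' u : ℝ, Bound a b ρ ρ' u ↔ Pool.Agent.R791.Level.Grow
      (fun v : {v // GoodV a b v} => Pool.Agent.H921R2.TatePole.nm v.1) (alV a b) ρ ρ' (u ^ ρ) := by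
    intro ρ ρ' u
    unfold Bound Pool.Agent.R791.Level.Grow
    simp only [sum_eq]
  have hU : ∀ ρ ρ' u : ℝ, Upper a b ρ ρ' u ↔ Pool.Agent.R791.Land.One
      (fun v : {v // GoodV a b v} => Pool.Agent.H921R2.TatePole.nm v.1) (alV a b) 1 ρ ρ'
        (u ^ ρ) := by
    intro ρ ρ' u
    unfold Upper Pool.Agent.R791.Land.One
    simp only [sum_eq, one_mul]
  have hL : ∀ ρ ρ' u : ℝ, Lower a b ρ ρ' u ↔ Pool.Agent.R791.Land.One
      (fun v : {v // GoodV a b v} => Pool.Agent.H921R2.TatePole.nm v.1) (alV a b) (-1) ρ ρ'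
        (u ^ ρ) := by
    intro ρ ρ' u
    unfold Lower Pool.Agent.R791.Land.One
    simp only [sum_eq, neg_mul, one_mul]
  have h32 : ∀ s : ℂ, (1 : ℝ) + 1 / 2 < s.re ↔ 3 / 2 < s.re := fun s => by norm_num
  have hLE : ∀ s : ℂ, LE (fun v : {v // GoodV a b v} => Pool.Agent.H921R2.TatePole.nm v.1)
      (alV a b) (s - (1 : ℝ)) = LSeries a b s := fun s => by
    rw [Complex.ofReal_one, LE_eq]
  refine ⟨fun ρ ρ' σ σ' u h1 h2 h3 h4 hu h => ?_, fun t ht => ?_, fun t ht => ?_⟩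
  · rw [hB] at h ⊢
    exact Pool.Agent.R791.Ends.grow_mono E h1 h2 h3 h4 hu h
  · have h1 := Pool.Agent.R791.Ends.axis_tfae E 1 ht
    unfold Pool.Agent.R791.Ends.AxisZF at h1
    simp only [h32, hLE] at h1
    simp only [hB]
    exact h1
  · have h1 := Pool.Agent.R791.Ends.ends_tfae E 1 ht
    simp only [h32, hLE] at h1
    simp only [hB, hU, hL]
    exact h1

end Pool.Agent.Results.MP_0d9be2_nt.TwoEnds
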